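import Pool.Agent.Lib.MP_abd978_an.PL.Defs
import Pool.Agent.Lib.MP_abd978_an.H49.Potx

/-!
# Project PLANAR: module NCON (nonconstant harmonic functions)
-/

set_option autoImplicit false

open MeasureTheory Metric Set Filter Topology ContDiff
open scoped Gradient RealInnerProductSpace

namespace Pool.Agent.Lib.MP_abd978_an.PL.H98

open Pool.Agent.Lib.MP_abd978_an Pool.Agent.Lib.MP_abd978_an.PL

variable {n : ℕ}

lemma isSob_congr' {μ : Measure (E n)} {p : ℝ} {D : Set (E n)} {u u' : E n → ℝ}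
    {v : E n → E n} (h : IsSob μ p D u v) (hu : u =ᵐ[μ.restrict D] u') : IsSob μ p D u' v := by
  obtain ⟨h1, h2, φ, h3, h4, h5⟩ := h
  refine ⟨h1.ae_eq hu, h2, φ, h3, ?_, h5⟩
  refine h4.congr fun i => eLpNorm_congr_ae ?_
  filter_upwards [hu] with x hx
  rw [hx]

lemma measure_ne_zero_of_open {μ : Measure (E n)} {p : ℝ} (hg : Geo p μ) {U : Set (E n)}
    (hU : IsOpen U) (hne : U.Nonempty) : μ U ≠ 0 := by
  obtain ⟨x, hx⟩ := hne
  obtain ⟨ε, hε, hb⟩ := Metric.isOpen_iff.1 hU x hx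
  intro h0
  have h1 := hg.pos x ε hε
  have h2 : μ (ball x ε) = 0 := measure_mono_null hb h0
  rw [Measure.real, h2] at h1
  simp at h1

lemma exists_of_ae {μ : Measure (E n)} {p : ℝ} (hg : Geo p μ) {U : Set (E n)}
    (hU : IsOpen U) (hne : U.Nonempty) {P : E n → Prop} (h : ∀ᵐ x ∂(μ.restrict U), P x) :
    ∃ x ∈ U, P x := by
  have h1 : (ae (μ.restrict U)).NeBot := by
    rw [ae_neBot, Ne, Measure.restrict_eq_zero]
    exact measure_ne_zero_of_open hg hU hne
  have h2 : ∀ᵐ x ∂(μ.restrict U), x ∈ U := ae_restrict_mem hU.measurableSet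
  obtain ⟨x, hx1, hx2⟩ := (h2.and h).exists
  exact ⟨x, hx1, hx2⟩

lemma deriv_sub_const' (c t : ℝ) : deriv (fun t : ℝ => t - c) t = 1 := by
  simp

lemma smoothNear_sub (c : ℝ) : SmoothNear (fun t : ℝ => t - c) 0 1 :=
  ⟨univ, isOpen_univ, subset_univ _, (contDiff_id.sub contDiff_const).contDiffOn⟩

/-- a function with vanishing gradient on a ball is constant there -/
lemma ball_const (hpoix : PoixStatement) {p : ℝ} {μ : Measure (E n)} (hg : Geo p μ)
    {u : E n → ℝ} {v : E n → E n} (hs : IsSob μ p univ u v) (h01 : ∀ x, u x ∈ Icc (0 : ℝ) 1)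
    {ξ : E n} {r : ℝ} (hr : 0 < r) (hv : ∀ᵐ x ∂(μ.restrict (ball ξ r)), v x = 0) :
    ∃ m : ℝ, ∀ᵐ x ∂(μ.restrict (ball ξ r)), u x = m := by
  have := hg.lf
  have hp := hg.hp
  obtain ⟨C, hC, h⟩ := hpoix n p μ hg
  have h1 := h univ u v 0 1 (fun t => t - 0) ξ r isOpen_univ hs h01 (smoothNear_sub 0) hr
    (subset_univ _)
  simp only [sub_zero] at h1
  have h2 : ⨍ x in ball ξ r, (|deriv (fun t : ℝ => t) (u x)| * ‖v x‖) ^ p ∂μ = 0 := by
    have h3 : ⨍ x in ball ξ r, (|deriv (fun t : ℝ => t) (u x)| * ‖v x‖) ^ p ∂μ =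
        ⨍ _x in ball ξ r, (0 : ℝ) ∂μ := by
      refine average_congr ?_
      filter_upwards [hv] with x hx
      rw [hx, norm_zero, mul_zero, Real.zero_rpow (by linarith)]
    rw [h3]
    simp [average]
  rw [h2, Real.zero_rpow (by positivity), mul_zero] at h1
  set m : ℝ := ⨍ y in ball ξ r, u y ∂μ with hm
  refine ⟨m, ?_⟩
  have hfin : μ (ball ξ r) ≠ ⊤ := measure_ball_lt_top.ne
  have hpos := hg.pos ξ r hr
  have hmeas : AEStronglyMeasurable u (μ.restrict (ball ξ r)) := by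
    have h4 := hs.1.1
    rw [Measure.restrict_univ] at h4
    exact h4.restrict
  have : IsFiniteMeasure (μ.restrict (ball ξ r)) := ⟨by
    rw [Measure.restrict_apply_univ]; exact hfin.lt_top⟩
  have hint : Integrable (fun x => |u x - m|) (μ.restrict (ball ξ r)) := by
    refine Integrable.abs (Integrable.sub ?_ (integrable_const _))
    refine Integrable.of_bound hmeas 1 (Eventually.of_forall fun x => ?_)
    rw [Real.norm_eq_abs, abs_le]
    exact ⟨by linarith [(h01 x).1], (h01 x).2⟩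
  have h5 : ∫ x in ball ξ r, |u x - m| ∂μ = 0 := by
    rw [setAverage_eq, smul_eq_mul] at h1
    have h6 : 0 ≤ ∫ x in ball ξ r, |u x - m| ∂μ := integral_nonneg fun _ => abs_nonneg _
    have h7 : 0 < (μ.real (ball ξ r))⁻¹ := inv_pos.mpr hpos
    by_contra hc
    have h8 : 0 < ∫ x in ball ξ r, |u x - m| ∂μ := lt_of_le_of_ne h6 (Ne.symm hc)
    have := mul_pos h7 h8
    linarith
  have h9 := (integral_eq_zero_iff_of_nonneg (fun _ => abs_nonneg _) hint).1 h5
  filter_upwards [h9] with x hx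
  have h10 : |u x - m| = 0 := hx
  linarith [abs_eq_zero.1 h10]

/-- a solution which is constant on `O` has gradient zero on `O` -/
lemma grad_zero (hcut : CutStatement) (hcacc : CaccStatement) {p : ℝ} {μ : Measure (E n)}
    {a : E n → E n → E n} {α β : ℝ} (hop : Op p μ a α β) {O : Set (E n)} {u : E n → ℝ}
    {v : E n → E n} (hB : BSol μ p a O u v 0 1) (hV : MemLp v (ENNReal.ofReal p) μ) {c : ℝ}
    (hc : ∀ᵐ x ∂(μ.restrict O), u x = c) : ∀ᵐ x ∂(μ.restrict O), v x = 0 := by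
  have := hop.lf
  have hp := hop.hp
  have hO := hB.isOpen
  rw [ae_restrict_iff' hO.measurableSet, ae_iff]
  refine measure_null_of_locally_null _ ?_
  intro x hx
  have hxO : x ∈ O := by
    simp only [mem_ofPred_eq, Classical.not_imp] at hx
    exact hx.1
  obtain ⟨t, ht, hb⟩ := Metric.nhds_basis_closedBall.mem_iff.1 (hO.mem_nhds hxO)
  obtain ⟨C0, hC0, hcut'⟩ := hcut n
  obtain ⟨η, hη, hη01, hη1, hηs, -⟩ := hcut' x (t / 2) t (by positivity) (by linarith)
  have hηT : Test O η := ⟨hη.1, hη.2.1, hηs.trans hb⟩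
  obtain ⟨C, hC, hcacc'⟩ := hcacc n p μ a α β hop
  have h1 := hcacc' O u v 0 1 (fun t => t - c) η hB (smoothNear_sub c)
    (fun t _ => by rw [deriv_sub_const']; exact one_pos) hηT hη01
  simp only [deriv_sub_const', one_mul, Real.one_rpow, mul_one] at h1
  have hc' := (ae_restrict_iff' hO.measurableSet).1 hc
  have h2 : ∫ x, |u x - c| ^ p * ‖∇ η x‖ ^ p ∂μ = 0 := by
    rw [integral_congr_ae (g := fun _ => (0 : ℝ)) (by
      filter_upwards [hc'] with y hy
      by_cases hyO : y ∈ O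
      · rw [hy hyO, sub_self, abs_zero, Real.zero_rpow (by linarith), zero_mul]
      · rw [grad_eq_zero_of_notMem (fun h => hyO (hηT.2.2 h)), norm_zero,
          Real.zero_rpow (by linarith), mul_zero])]
    simp
  rw [h2, mul_zero] at h1
  have hint : Integrable (fun x => η x ^ ⌈p⌉₊ * ‖v x‖ ^ p) μ := by
    have h3 := hV.integrable_norm_rpow (by
      intro h0
      have := one_le_ofReal hp
      rw [h0] at this
      simp at this) ENNReal.ofReal_ne_top
    rw [ENNReal.toReal_ofReal (by linarith)] at h3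
    refine h3.bdd_mul (c := 1) ?_ ?_
    · exact (hη.1.continuous.pow _).aestronglyMeasurable
    · refine Eventually.of_forall fun y => ?_
      rw [norm_pow]
      refine pow_le_one₀ (norm_nonneg _) ?_
      rw [Real.norm_eq_abs, abs_le]
      exact ⟨by linarith [(hη01 y).1], (hη01 y).2⟩
  have hnn : ∀ y, 0 ≤ η y ^ ⌈p⌉₊ * ‖v y‖ ^ p := fun y =>
    mul_nonneg (pow_nonneg (hη01 y).1 _) (Real.rpow_nonneg (norm_nonneg _) _)
  have h4 : (fun x => η x ^ ⌈p⌉₊ * ‖v x‖ ^ p) =ᵐ[μ] 0 :=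
    (integral_eq_zero_iff_of_nonneg hnn hint).1 (le_antisymm h1 (integral_nonneg hnn))
  refine ⟨{y | ¬ (y ∈ O → v y = 0)} ∩ closedBall x (t / 2), ?_, ?_⟩
  · refine inter_mem self_mem_nhdsWithin (mem_nhdsWithin_of_mem_nhds ?_)
    exact closedBall_mem_nhds x (by positivity)
  · have h5 : ∀ᵐ y ∂μ, y ∈ closedBall x (t / 2) → v y = 0 := by
      filter_upwards [h4] with y hy hyb
      have h6 : η y ^ ⌈p⌉₊ * ‖v y‖ ^ p = 0 := hy
      rw [hη1 y hyb, one_pow, one_mul] at h6
      exact norm_eq_zero.1 ((Real.rpow_eq_zero (norm_nonneg _) (by linarith)).1 h6)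
    refine measure_mono_null ?_ (ae_iff.1 h5)
    rintro y ⟨hy1, hy2⟩
    simp only [mem_ofPred_eq, Classical.not_imp] at hy1 ⊢
    exact ⟨hy2, hy1.2⟩

/-- module NCON -/
theorem ncon (hdir : DirStatement) (hrep : RepStatement) (hcut : CutStatement)
    (hbc : BchainStatement) (hS : Sob1Statement) (hP : PairStatement) (hcacc : CaccStatement)
    (hI : IntgStatement) (hpoix : PoixStatement) : NconStatement := by
  intro n p μ a α β O hn hop hO hne hbd
  have := hop.lf
  have hp := hop.hp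
  have hg := hop.toGeo
  let i0 : Fin n := ⟨0, by omega⟩
  let e : E n := EuclideanSpace.single i0 (1 : ℝ)
  have hecoord : ∀ (x : E n) (s : ℝ), (x + s • e) i0 = x i0 + s := by
    intro x s
    simp [e]
  have henorm : ‖e‖ = 1 := by simp [e]
  have hcontc : Continuous fun x : E n => x i0 := by fun_prop
  have hcompact : IsCompact (closure O) := hbd.isCompact_closure
  obtain ⟨ξ₁, hξ₁, hmax⟩ := hcompact.exists_isMaxOn hne.closure hcontc.continuousOn
  obtain ⟨ξ₂, hξ₂, hmin⟩ := hcompact.exists_isMinOn hne.closure hcontc.continuousOn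
  -- the two points are different
  have hlt : ξ₂ i0 < ξ₁ i0 := by
    obtain ⟨x0, hx0⟩ := hne
    obtain ⟨ε, hε, hb⟩ := Metric.isOpen_iff.1 hO x0 hx0
    have h1 : x0 + (ε / 2) • e ∈ closure O := by
      refine subset_closure (hb ?_)
      rw [mem_ball, dist_eq_norm, add_sub_cancel_left, norm_smul, henorm, mul_one,
        Real.norm_of_nonneg (by positivity)]
      linarith
    have h2 : (x0 + (ε / 2) • e) i0 ≤ ξ₁ i0 := hmax h1
    have h3 : ξ₂ i0 ≤ x0 i0 := hmin (subset_closure hx0)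
    rw [hecoord] at h2
    linarith
  have hdist : 0 < dist ξ₁ ξ₂ := by
    rw [dist_pos]
    intro h
    rw [h] at hlt
    exact lt_irrefl _ hlt
  set r : ℝ := dist ξ₁ ξ₂ / 4 with hr
  have hr0 : 0 < r := by positivity
  -- the datum
  let f : ContDiffBump ξ₁ := ⟨r, 2 * r, hr0, by linarith⟩
  let g : E n → ℝ := f
  have hgts : tsupport (f : E n → ℝ) = closedBall ξ₁ (2 * r) := f.tsupport_eq
  have hgU : Test univ g := ⟨f.contDiff, f.hasCompactSupport, subset_univ _⟩
  have hg01 : ∀ x, g x ∈ Icc (0 : ℝ) 1 := fun x => ⟨f.nonneg, f.le_one⟩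
  have hg1 : ∀ x ∈ ball ξ₁ r, g x = 1 := fun x hx =>
    f.one_of_mem_closedBall (ball_subset_closedBall hx)
  have hfar : ∀ x ∈ ball ξ₂ r, x ∉ tsupport g := by
    intro x hx hx'
    have h1 : x ∈ closedBall ξ₁ (2 * r) := by rw [← hgts]; exact hx'
    rw [mem_closedBall] at h1
    rw [mem_ball] at hx
    have h2 := dist_triangle_left ξ₁ ξ₂ x
    have h3 : dist ξ₁ ξ₂ = 4 * r := by rw [hr]; ring
    linarith
  have hg2 : ∀ x ∈ ball ξ₂ r, g x = 0 := fun x hx =>
    image_eq_zero_of_notMem_tsupport (hfar x hx)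
  have hdg1 : ∀ x ∈ ball ξ₁ r, ∇ g x = 0 := by
    intro x hx
    have h1 : g =ᶠ[𝓝 x] fun _ => (1 : ℝ) := by
      filter_upwards [isOpen_ball.mem_nhds hx] with y hy
      exact hg1 y hy
    rw [grad_eq, h1.fderiv_eq]
    simp
  have hdg2 : ∀ x ∈ ball ξ₂ r, ∇ g x = 0 := fun x hx => grad_eq_zero_of_notMem (hfar x hx)
  -- the solution
  obtain ⟨R, hR0, hR⟩ : ∃ R, 0 < R ∧ O ⊆ ball (0 : E n) R := by
    obtain ⟨R, hR⟩ := hbd.subset_ball (0 : E n)
    exact ⟨max R 1, by positivity, hR.trans (ball_subset_ball (le_max_left _ _))⟩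
  obtain ⟨u, V, hu0, hue⟩ := hdir n p μ a α β O 0 R g hop hO hR hgU
  have hrange := H49.range hbc hP hS hI hop hO hR hR0 hgU hg01 hu0 hue
  let u₁ : E n → ℝ := fun x => max 0 (min 1 (u x))
  have hu1 : ∀ x, u₁ x ∈ Icc (0 : ℝ) 1 := fun x =>
    ⟨le_max_left _ _, max_le zero_le_one (min_le_left _ _)⟩
  have hu1u : u =ᵐ[μ] u₁ := by
    filter_upwards [hrange] with x hx
    show u x = max 0 (min 1 (u x))
    rw [min_eq_right hx.2, max_eq_right hx.1]
  have hu10 : H0 μ p O (fun x => u₁ x - g x) (fun x => V x - ∇ g x) := by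
    refine H49.H0.congr hu0 ?_ (ae_eq_refl _)
    filter_upwards [hu1u] with x hx
    rw [hx]
  have hsol : BSol μ p a O u₁ V 0 1 :=
    { isOpen := hO
      sob := H0.isSob hgU hu10 O
      mem := hu1
      eqn := hue }
  have hV : MemLp V (ENNReal.ofReal p) μ := by
    have h6 := hu10.2.1.add (hgU.memLp_grad (μ := μ) (ENNReal.ofReal p))
    have h7 : ((fun x => V x - ∇ g x) + fun x => ∇ g x) = V := by
      funext x
      simp
    rwa [h7] at h6
  obtain ⟨h, hhc, hhm, hhe⟩ := hrep n p μ a α β O u₁ V 0 1 hop hsol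
  have hharm : Harm μ p a O h := by
    refine ⟨hhc, V, fun D _ _ hD3 => ?_, hue⟩
    have hDO : D ⊆ O := subset_closure.trans hD3
    refine isSob_congr' (H0.isSob hgU hu10 D) ?_
    have h1 := ae_restrict_of_ae_restrict_of_subset hDO hhe
    filter_upwards [h1] with x hx
    exact hx.symm
  refine ⟨h, hharm, ?_⟩
  by_contra hcon
  push Not at hcon
  obtain ⟨x0, hx0⟩ := hne
  have hhconst : ∀ x ∈ O, h x = h x0 := fun x hx => hcon x hx x0 hx0
  set c : ℝ := h x0 with hc
  have hcae : ∀ᵐ x ∂(μ.restrict O), u₁ x = c := by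
    filter_upwards [hhe, ae_restrict_mem hO.measurableSet] with x hx hxO
    rw [← hx, hhconst x hxO]
  have hgz := grad_zero hcut hcacc hop hsol hV hcae
  have hgz' := (ae_restrict_iff' hO.measurableSet).1 hgz
  obtain ⟨hz1, hz2⟩ := H0.ae_eq_zero hp hO.measurableSet hu10
  have hz1' := (ae_restrict_iff' hO.measurableSet.compl).1 hz1
  have hz2' := (ae_restrict_iff' hO.measurableSet.compl).1 hz2
  -- on both balls the constant is the value of `g`
  have hkey : ∀ (ξ : E n) (k : ℝ), ξ ∈ closure O → (∀ x ∈ ball ξ r, g x = k) →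
      (∀ x ∈ ball ξ r, ∇ g x = 0) → (∃ s : ℝ, |s| < r ∧ ξ + s • e ∉ closure O) → c = k := by
    intro ξ k hξ hgk hdg hout
    have hv : ∀ᵐ x ∂(μ.restrict (ball ξ r)), V x = 0 := by
      rw [ae_restrict_iff' isOpen_ball.measurableSet]
      filter_upwards [hgz', hz2'] with x h1 h2 hx
      by_cases hxO : x ∈ O
      · exact h1 hxO
      · have h3 := h2 hxO
        rwa [hdg x hx, sub_zero] at h3
    obtain ⟨m, hm⟩ := ball_const hpoix hg (H0.isSob hgU hu10 univ) hu1 hr0 hv
    -- inside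
    have h1 : (ball ξ r ∩ O).Nonempty := by
      obtain ⟨y, hy1, hy2⟩ := mem_closure_iff_nhds.1 hξ (ball ξ r) (ball_mem_nhds ξ hr0)
      exact ⟨y, hy1, hy2⟩
    have h2 : ∀ᵐ x ∂(μ.restrict (ball ξ r ∩ O)), u₁ x = m ∧ u₁ x = c := by
      have h3 := ae_restrict_of_ae_restrict_of_subset (inter_subset_left (t := O)) hm
      have h4 := ae_restrict_of_ae_restrict_of_subset (inter_subset_right (s := ball ξ r)) hcae
      exact h3.and h4
    obtain ⟨x, -, hx1, hx2⟩ := exists_of_ae hg (isOpen_ball.inter hO) h1 h2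
    -- outside
    obtain ⟨s, hs, hsO⟩ := hout
    have h5 : (ball ξ r ∩ (closure O)ᶜ).Nonempty := by
      refine ⟨ξ + s • e, ?_, hsO⟩
      rw [mem_ball, dist_eq_norm, add_sub_cancel_left, norm_smul, henorm, mul_one,
        Real.norm_eq_abs]
      exact hs
    have h6 : ∀ᵐ x ∂(μ.restrict (ball ξ r ∩ (closure O)ᶜ)), u₁ x = m ∧ u₁ x = k := by
      have h3 := ae_restrict_of_ae_restrict_of_subset (inter_subset_left (t := (closure O)ᶜ)) hm
      refine h3.and ?_
      rw [ae_restrict_iff' (isOpen_ball.inter isClosed_closure.isOpen_compl).measurableSet]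
      filter_upwards [hz1'] with x hx hx'
      have h7 := hx (fun hxO => hx'.2 (subset_closure hxO))
      rw [← hgk x hx'.1]
      linarith
    obtain ⟨y, -, hy1, hy2⟩ := exists_of_ae hg
      (isOpen_ball.inter isClosed_closure.isOpen_compl) h5 h6
    rw [← hx2, hx1, ← hy1, hy2]
  have hc1 : c = 1 := by
    refine hkey ξ₁ 1 hξ₁ hg1 hdg1 ⟨r / 2, ?_, ?_⟩
    · rw [abs_of_pos (by positivity)]; linarith
    · intro hmem
      have h1 : (ξ₁ + (r / 2) • e) i0 ≤ ξ₁ i0 := hmax hmem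
      rw [hecoord] at h1
      linarith
  have hc2 : c = 0 := by
    refine hkey ξ₂ 0 hξ₂ hg2 hdg2 ⟨-(r / 2), ?_, ?_⟩
    · rw [abs_neg, abs_of_pos (by positivity)]; linarith
    · intro hmem
      have h1 : ξ₂ i0 ≤ (ξ₂ + (-(r / 2)) • e) i0 := hmin hmem
      rw [hecoord] at h1
      linarith
  rw [hc1] at hc2
  exact one_ne_zero hc2

end Pool.Agent.Lib.MP_abd978_an.PL.H98
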