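import Pool.Agent.Lib.MP_abd978_an.PL.Defs

/-!
# Project PLANAR: module EMB (Hölder's inequality)
-/

set_option autoImplicit false

open MeasureTheory Metric Set Filter Topology ContDiff
open scoped Gradient RealInnerProductSpace

namespace Pool.Agent.Lib.MP_abd978_an.PL.H98

open Pool.Agent.Lib.MP_abd978_an Pool.Agent.Lib.MP_abd978_an.PL

/-- the constant -/
noncomputable def cst (p : ℝ) (w : E 2 → ℝ) (D : Set (E 2)) : ENNReal :=
  (∫⁻ x in D, ENNReal.ofReal (w x ^ (-(1 / (p - 1))))) ^ (1 / (Real.conjExponent p))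

lemma restrict_wm (w : E 2 → ℝ) {D : Set (E 2)} (hD : MeasurableSet D) :
    (wm w).restrict D = (volume.restrict D).withDensity fun x => ENNReal.ofReal (w x) := by
  unfold wm
  exact restrict_withDensity hD _

lemma aem_w {p : ℝ} {w : E 2 → ℝ} {D : Set (E 2)} (h : Wt p w D) :
    AEMeasurable (fun x => ENNReal.ofReal (w x)) (volume.restrict D) :=
  h.int.1.aemeasurable.ennreal_ofReal

lemma ac {p : ℝ} {w : E 2 → ℝ} {D : Set (E 2)} (h : Wt p w D) :
    (volume.restrict D) ≪ (wm w).restrict D := by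
  rw [restrict_wm w h.isOpen.measurableSet]
  refine withDensity_absolutelyContinuous' (aem_w h) ?_
  filter_upwards [h.pos] with x hx
  rw [Ne, ENNReal.ofReal_eq_zero, not_le]
  exact hx

lemma cst_lt {p : ℝ} {w : E 2 → ℝ} {D : Set (E 2)} (h : Wt p w D) : cst p w D ≠ ⊤ := by
  unfold cst
  refine ENNReal.rpow_ne_top_of_nonneg ?_ ?_
  · have := (Real.HolderConjugate.conjExponent h.hp).symm.pos
    positivity
  · refine ne_of_lt (lt_of_le_of_lt ?_ h.dual.2)
    refine lintegral_mono fun x => ?_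
    rw [← ofReal_norm]
    exact ENNReal.ofReal_le_ofReal (le_abs_self _)

lemma key {F : Type*} [NormedAddCommGroup F] {p : ℝ} {w : E 2 → ℝ} {D : Set (E 2)}
    (h : Wt p w D) (f : E 2 → F) (hf : AEStronglyMeasurable f ((wm w).restrict D)) :
    eLpNorm f 1 (volume.restrict D) ≤
      cst p w D * eLpNorm f (ENNReal.ofReal p) ((wm w).restrict D) := by
  have hp := h.hp
  have hp0 : 0 < p := by linarith
  have hpq := Real.HolderConjugate.conjExponent hp
  have hq0 := hpq.symm.pos
  have hf' : AEStronglyMeasurable f (volume.restrict D) := hf.mono_ac (ac h)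
  have hW := aem_w h
  set W : E 2 → ENNReal := fun x => ENNReal.ofReal (w x) with hWdef
  have h1 : eLpNorm f 1 (volume.restrict D) =
      ∫⁻ x in D, (fun x => ‖f x‖ₑ * W x ^ (1 / p)) x * (fun x => W x ^ (-(1 / p))) x := by
    rw [eLpNorm_one_eq_lintegral_enorm]
    refine lintegral_congr_ae ?_
    filter_upwards [h.pos] with x hx
    have h2 : W x ≠ 0 := by
      rw [hWdef, Ne, ENNReal.ofReal_eq_zero, not_le]; exact hx
    have h3 : W x ≠ ⊤ := ENNReal.ofReal_ne_top
    show ‖f x‖ₑ = ‖f x‖ₑ * W x ^ (1 / p) * W x ^ (-(1 / p))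
    rw [mul_assoc, ← ENNReal.rpow_add _ _ h2 h3, add_neg_cancel, ENNReal.rpow_zero, mul_one]
  have h4 := ENNReal.lintegral_mul_le_Lp_mul_Lq (volume.restrict D) hpq
    (f := fun x => ‖f x‖ₑ * W x ^ (1 / p)) (g := fun x => W x ^ (-(1 / p)))
    (hf'.enorm.mul (hW.pow_const _)) (hW.pow_const _)
  rw [h1]
  refine h4.trans ?_
  have h5 : (∫⁻ x in D, (fun x => ‖f x‖ₑ * W x ^ (1 / p)) x ^ p) ^ (1 / p) =
      eLpNorm f (ENNReal.ofReal p) ((wm w).restrict D) := by
    rw [eLpNorm_eq_lintegral_rpow_enorm_toReal (by simpa using hp0) ENNReal.ofReal_ne_top,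
      ENNReal.toReal_ofReal hp0.le, restrict_wm w h.isOpen.measurableSet,
      lintegral_withDensity_eq_lintegral_mul₀ hW (hf'.enorm.pow_const _)]
    congr 1
    refine lintegral_congr fun x => ?_
    show (‖f x‖ₑ * W x ^ (1 / p)) ^ p = W x * ‖f x‖ₑ ^ p
    rw [ENNReal.mul_rpow_of_nonneg _ _ hp0.le, ← ENNReal.rpow_mul, one_div_mul_cancel hp0.ne',
      ENNReal.rpow_one, mul_comm]
  have h6 : (∫⁻ x in D, (fun x => W x ^ (-(1 / p))) x ^ (Real.conjExponent p)) ^
      (1 / (Real.conjExponent p)) = cst p w D := by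
    unfold cst
    congr 1
    refine lintegral_congr_ae ?_
    filter_upwards [h.pos] with x hx
    show (W x ^ (-(1 / p))) ^ (Real.conjExponent p) = ENNReal.ofReal (w x ^ (-(1 / (p - 1))))
    rw [← ENNReal.rpow_mul, hWdef, ENNReal.ofReal_rpow_of_pos hx]
    congr 2
    unfold Real.conjExponent
    have : p - 1 ≠ 0 := by linarith
    field_simp
  have h7 : (∫⁻ x in D, (fun x => ‖f x‖ₑ * W x ^ (1 / p)) x ^ p) ^ (1 / p) *
      (∫⁻ x in D, (fun x => W x ^ (-(1 / p))) x ^ (Real.conjExponent p)) ^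
      (1 / (Real.conjExponent p)) =
      cst p w D * eLpNorm f (ENNReal.ofReal p) ((wm w).restrict D) := by
    rw [h5, h6, mul_comm]
  exact h7.le

theorem emb : EmbStatement := by
  intro p w D u V h hs
  obtain ⟨hu, hV, φ, hφ, h1, h2⟩ := hs
  have hD := h.isOpen.measurableSet
  have hc := cst_lt h
  have hmem : ∀ {F : Type} [NormedAddCommGroup F] (f : E 2 → F),
      MemLp f (ENNReal.ofReal p) ((wm w).restrict D) →
      MemLp f (ENNReal.ofReal 1) (volume.restrict D) := by
    intro F _ f hf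
    refine ⟨hf.1.mono_ac (ac h), ?_⟩
    rw [ENNReal.ofReal_one]
    exact lt_of_le_of_lt (key h f hf.1) (ENNReal.mul_lt_top hc.lt_top hf.2)
  refine ⟨hmem u hu, hmem V hV, φ, hφ, ?_, ?_⟩
  · have h3 := ENNReal.Tendsto.const_mul (a := cst p w D) h1 (Or.inr hc)
    rw [mul_zero] at h3
    refine tendsto_of_tendsto_of_tendsto_of_le_of_le tendsto_const_nhds h3 (fun _ => bot_le)
      fun i => ?_
    rw [ENNReal.ofReal_one]
    refine key h _ (AEStronglyMeasurable.sub ?_ hu.1)
    exact (hφ i).continuousOn.aestronglyMeasurable hD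
  · have h3 := ENNReal.Tendsto.const_mul (a := cst p w D) h2 (Or.inr hc)
    rw [mul_zero] at h3
    refine tendsto_of_tendsto_of_tendsto_of_le_of_le tendsto_const_nhds h3 (fun _ => bot_le)
      fun i => ?_
    rw [ENNReal.ofReal_one]
    refine key h _ (AEStronglyMeasurable.sub ?_ hV.1)
    have h4 : ContinuousOn (fderiv ℝ (φ i)) D :=
      (hφ i).continuousOn_fderiv_of_isOpen h.isOpen (by simp)
    exact ((InnerProductSpace.toDual ℝ (E 2)).symm.continuous.comp_continuousOn
      h4).aestronglyMeasurable hD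

end Pool.Agent.Lib.MP_abd978_an.PL.H98
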